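import Pool.Agent.helper88.RQ2.Spec

open Set Matroid RadonMin

namespace RadonQ2

theorem GCI_proof (hGAI : GAI_stmt) : GCI_stmt := by
  intro V _ _ _ X B hBX
  rw [fcircuit_iff hBX]
  constructor
  · rintro ⟨h1, h2⟩
    refine ⟨fun h => h1 ((hGAI V B).mpr h), fun C hC => ?_⟩
    obtain ⟨hCB, hBC⟩ := hC
    obtain ⟨x, hxB, hxC⟩ := Finset.not_subset.mp hBC
    have h3 : C ⊆ B.erase x := by
      intro y hy
      refine Finset.mem_erase.mpr ⟨?_, hCB hy⟩
      rintro rfl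
      exact hxC hy
    exact (hGAI V C).mp ((h2 x hxB).subset h3)
  · rintro ⟨h1, h2⟩
    refine ⟨fun h => h1 ((hGAI V B).mp h), fun x hx => ?_⟩
    exact (hGAI V _).mpr (h2 _ (Finset.erase_ssubset hx))

end RadonQ2
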